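import Pool.Agent.MP_98f34a_gt.H5.Defs

/-! Arbitrarily fine tree covers give the fixed point property of the hyperspace of
subcontinua (from Brouwer's theorem). -/

namespace Pool.Agent.MP_98f34a_gt.H93

open Set TopologicalSpace Metric Pool.Agent.MP_98f34a_gt.H5

section Comb
variable {V : Type} [Fintype V] [DecidableEq V] (nxt : V → V → V) (dep : V → V → ℕ)

/-- Sets closed under `nxt`. -/
def Cl (W : Finset V) : Prop := ∀ a ∈ W, ∀ b ∈ W, nxt a b ∈ W

open Classical in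
/-- Closed sets missing `c`. -/
noncomputable def fam (c : V) : Finset (Finset V) :=
  Finset.univ.filter fun W => Cl nxt W ∧ c ∉ W

lemma mem_fam {c : V} {W : Finset V} : W ∈ fam nxt c ↔ Cl nxt W ∧ c ∉ W := by
  simp [fam]

lemma fam_ne (c : V) : (fam nxt c).Nonempty := ⟨∅, by simp [mem_fam, Cl]⟩

/-- The quasi-concave hull of `w`. -/
noncomputable def hat (w : V → ℝ) (c : V) : ℝ :=
  (fam nxt c).inf' (fam_ne nxt c) fun W => (insert c Wᶜ).sup' (Finset.insert_nonempty _ _) w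

lemma le_hat (w : V → ℝ) (c : V) : w c ≤ hat nxt w c :=
  Finset.le_inf' _ _ fun _ _ => Finset.le_sup' w (Finset.mem_insert_self _ _)

lemma hat_le (w : V → ℝ) {c : V} {W : Finset V} (hW : Cl nxt W) (hc : c ∉ W) {t : ℝ}
    (ht : ∀ a, a ∉ W → w a ≤ t) : hat nxt w c ≤ t := by
  refine (Finset.inf'_le _ ((mem_fam nxt).2 ⟨hW, hc⟩)).trans ?_
  refine Finset.sup'_le _ _ fun a ha => ht a ?_
  rcases Finset.mem_insert.1 ha with rfl | ha
  · exact hc
  · exact Finset.mem_compl.1 ha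

lemma hat_nxt (w : V → ℝ) (a b : V) :
    min (hat nxt w a) (hat nxt w b) ≤ hat nxt w (nxt a b) := by
  refine Finset.le_inf' _ _ fun W hW => ?_
  obtain ⟨hW, hc⟩ := (mem_fam nxt).1 hW
  have key : ∀ x, x ∉ W → w x ≤ (insert (nxt a b) Wᶜ).sup' (Finset.insert_nonempty _ _) w :=
    fun x hx => Finset.le_sup' w (Finset.mem_insert_of_mem (Finset.mem_compl.2 hx))
  by_cases ha : a ∈ W
  · have hb : b ∉ W := fun hb => hc (hW a ha b hb)
    exact (min_le_right _ _).trans (hat_le nxt w hW hb key)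
  · exact (min_le_left _ _).trans (hat_le nxt w hW ha key)

lemma continuous_hat (c : V) : Continuous fun w : V → ℝ => hat nxt w c :=
  Continuous.finset_inf'_apply _ fun _ _ =>
    Continuous.finset_sup'_apply (f := fun a (w : V → ℝ) => w a) _ fun a _ => continuous_apply a

variable [Nonempty V]

/-- The maximum of `w`. -/
noncomputable def mx (w : V → ℝ) : ℝ := Finset.univ.sup' Finset.univ_nonempty w

omit [DecidableEq V] in
lemma le_mx (w : V → ℝ) (a : V) : w a ≤ mx w := Finset.le_sup' w (Finset.mem_univ a)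

omit [DecidableEq V] in
lemma exists_mx (w : V → ℝ) : ∃ a, w a = mx w := by
  obtain ⟨a, -, h⟩ := Finset.exists_mem_eq_sup' Finset.univ_nonempty w
  exact ⟨a, h.symm⟩

omit [DecidableEq V] in
lemma continuous_mx : Continuous fun w : V → ℝ => mx w :=
  Continuous.finset_sup'_apply (f := fun a (w : V → ℝ) => w a) _ fun a _ => continuous_apply a

/-- The budget when starting at `b` and arriving at `a`. -/
noncomputable def bud (N : ℝ) (w : V → ℝ) (b a : V) : ℝ :=
  min (N * (1 + w b - mx w)) (N * (2 + hat nxt w a - mx w))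

/-- The remaining time at the vertex `a`. -/
noncomputable def ee (N : ℝ) (w : V → ℝ) (a : V) : ℝ :=
  Finset.univ.sup' Finset.univ_nonempty fun b => bud nxt N w b a - dep b a

lemma le_ee (N : ℝ) (w : V → ℝ) (b a : V) : bud nxt N w b a - dep b a ≤ ee nxt dep N w a :=
  Finset.le_sup' (fun b => bud nxt N w b a - dep b a) (Finset.mem_univ b)

lemma exists_ee (N : ℝ) (w : V → ℝ) (a : V) :
    ∃ b, ee nxt dep N w a = bud nxt N w b a - dep b a := by
  obtain ⟨b, -, h⟩ := Finset.exists_mem_eq_sup' Finset.univ_nonempty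
    (fun b => bud nxt N w b a - dep b a)
  exact ⟨b, h⟩

lemma continuous_ee (N : ℝ) (a : V) : Continuous fun w : V → ℝ => ee nxt dep N w a := by
  refine Continuous.finset_sup'_apply
    (f := fun b (w : V → ℝ) => bud nxt N w b a - dep b a) _ fun b _ => ?_
  have h1 := continuous_hat nxt a
  have h2 := continuous_mx (V := V)
  unfold bud
  fun_prop

lemma bud_nxt {N : ℝ} (hN : 0 ≤ N) (w : V → ℝ) (b a : V) :
    bud nxt N w b a ≤ bud nxt N w b (nxt b a) := by
  unfold bud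
  refine le_min (min_le_left _ _) ?_
  have h1 := hat_nxt nxt w b a
  have h2 := le_hat nxt w b
  rcases min_le_iff.1 h1 with h | h
  · exact (min_le_left _ _).trans (mul_le_mul_of_nonneg_left (by linarith) hN)
  · exact (min_le_right _ _).trans (mul_le_mul_of_nonneg_left (by linarith) hN)

lemma bud_top {N : ℝ} (hN : 0 < N) (w : V → ℝ) {a0 b a : V} (h0 : w a0 = mx w)
    (hb : 0 ≤ bud nxt N w b a) : N ≤ bud nxt N w a0 b := by
  unfold bud at *
  have h1 : 0 ≤ 1 + w b - mx w := by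
    by_contra h
    push Not at h
    have := mul_neg_of_pos_of_neg hN h
    linarith [min_le_left (N * (1 + w b - mx w)) (N * (2 + hat nxt w a - mx w))]
  have h2 := le_hat nxt w b
  refine le_min (by rw [h0]; simp) ?_
  nlinarith

lemma hat_of_ee {N : ℝ} (hN : 0 < N) (w : V → ℝ) {a : V} (h : 0 ≤ ee nxt dep N w a) :
    mx w - 2 ≤ hat nxt w a := by
  obtain ⟨b, hb⟩ := exists_ee nxt dep N w a
  have h1 : bud nxt N w b a ≤ N * (2 + hat nxt w a - mx w) := min_le_right _ _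
  have h2 : (0 : ℝ) ≤ dep b a := Nat.cast_nonneg _
  by_contra hh
  push Not at hh
  have := mul_neg_of_pos_of_neg hN (show 2 + hat nxt w a - mx w < 0 by linarith)
  linarith

end Comb

section Top
variable {X : Type} [MetricSpace X]

lemma isClosed_conn :
    IsClosed {K : NonemptyCompacts X | IsConnected (K : Set X)} := by
  rw [← isOpen_compl_iff, isOpen_iff_mem_nhds]
  intro K hK
  have hK' : ¬ IsPreconnected (K : Set X) := fun h => hK ⟨K.nonempty, h⟩
  rw [isPreconnected_closed_iff] at hK'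
  push Not at hK'
  obtain ⟨t, t', ht, ht', hsub, hne, hne', hem⟩ := hK'
  have hd : Disjoint ((K : Set X) ∩ t) ((K : Set X) ∩ t') := by
    rw [Set.disjoint_iff_inter_eq_empty, ← Set.inter_inter_distrib_left]
    exact hem
  obtain ⟨U, W, hU, hW, h1, h2, hUW⟩ := SeparatedNhds.of_isCompact_isCompact
    (K.isCompact.inter_right ht) (K.isCompact.inter_right ht') hd
  have ho : IsOpen ({L : NonemptyCompacts X | (L : Set X) ⊆ U ∪ W} ∩
      ({L : NonemptyCompacts X | ((L : Set X) ∩ U).Nonempty} ∩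
        {L : NonemptyCompacts X | ((L : Set X) ∩ W).Nonempty})) :=
    (NonemptyCompacts.isOpen_subsets_of_isOpen (hU.union hW)).inter
      ((NonemptyCompacts.isOpen_inter_nonempty_of_isOpen hU).inter
        (NonemptyCompacts.isOpen_inter_nonempty_of_isOpen hW))
  refine Filter.mem_of_superset (ho.mem_nhds ⟨fun x hx => ?_, ?_, ?_⟩) ?_
  · rcases hsub hx with h | h
    · exact Or.inl (h1 ⟨hx, h⟩)
    · exact Or.inr (h2 ⟨hx, h⟩)
  · obtain ⟨x, hx⟩ := hne
    exact ⟨x, hx.1, h1 hx⟩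
  · obtain ⟨x, hx⟩ := hne'
    exact ⟨x, hx.1, h2 hx⟩
  · rintro L ⟨hL1, hL2, hL3⟩ hL
    obtain ⟨x, -, hx⟩ := hL.isPreconnected U W hU hW hL1 hL2 hL3
    exact Set.disjoint_left.1 hUW hx.1 hx.2

instance [CompactSpace X] : CompactSpace (H5.Sub X) :=
  isCompact_iff_compactSpace.1 isClosed_conn.isCompact

lemma sub_dist (K L : H5.Sub X) : dist K L = hausdorffDist (K.1 : Set X) (L.1 : Set X) :=
  NonemptyCompacts.dist_eq

/-- The distance between a continuum and a set. -/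
noncomputable def gap (K : H5.Sub X) (F : Set X) : ℝ := sInf ((fun z => infDist z F) '' (K.1 : Set X))

lemma gap_spec (K : H5.Sub X) (F : Set X) :
    ∃ z ∈ (K.1 : Set X), gap K F = infDist z F ∧ ∀ y ∈ (K.1 : Set X), gap K F ≤ infDist y F := by
  obtain ⟨z, hz, h1, h2⟩ := K.1.isCompact.exists_sInf_image_eq_and_le K.1.nonempty
    (continuous_infDist_pt F).continuousOn
  exact ⟨z, hz, h1, fun y hy => h1.trans_le (h2 y hy)⟩

lemma gap_le (K L : H5.Sub X) (F : Set X) : gap K F ≤ gap L F + dist K L := by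
  obtain ⟨z, hz, h1, -⟩ := gap_spec L F
  obtain ⟨-, -, -, h2⟩ := gap_spec K F
  obtain ⟨y, hy, h3⟩ := K.1.isCompact.exists_infDist_eq_dist K.1.nonempty z
  have h4 : infDist z (K.1 : Set X) ≤ hausdorffDist (L.1 : Set X) (K.1 : Set X) :=
    infDist_le_hausdorffDist_of_mem hz
      (hausdorffEDist_ne_top_of_nonempty_of_bounded L.1.nonempty K.1.nonempty
        L.1.isCompact.isBounded K.1.isCompact.isBounded)
  have h5 := infDist_le_infDist_add_dist (s := F) (x := y) (y := z)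
  rw [sub_dist, hausdorffDist_comm]
  rw [dist_comm] at h5
  linarith [h2 y hy]

lemma continuous_gap (F : Set X) : Continuous fun K : H5.Sub X => gap K F := by
  refine (LipschitzWith.of_le_add fun K L => gap_le K L F).continuous

lemma gap_nonneg (K : H5.Sub X) (F : Set X) : 0 ≤ gap K F := by
  obtain ⟨z, -, h1, -⟩ := gap_spec K F
  rw [h1]
  exact infDist_nonneg

lemma gap_zero (K : H5.Sub X) {F : Set X} {z : X} (hz : z ∈ (K.1 : Set X)) (hF : z ∈ F) :
    gap K F = 0 := by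
  obtain ⟨-, -, -, h2⟩ := gap_spec K F
  have := h2 z hz
  rw [infDist_zero_of_mem hF] at this
  exact le_antisymm this (gap_nonneg K F)

lemma exists_pos_le {ι : Type} [Finite ι] (d : ι → ℝ) (hd : ∀ i, 0 < d i) {c : ℝ} (hc : 0 < c) :
    ∃ δ, 0 < δ ∧ δ ≤ c ∧ ∀ i, δ ≤ d i := by
  rcases isEmpty_or_nonempty ι with h | h
  · exact ⟨c, hc, le_rfl, fun i => h.elim i⟩
  · obtain ⟨i, hi⟩ := Finite.exists_min d
    exact ⟨min c (d i), lt_min hc (hd i), min_le_left _ _, fun j => (min_le_right _ _).trans (hi j)⟩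

variable {ε : ℝ} (C : TreeCover X ε)

lemma exists_gam (hε : 0 ≤ ε) : ∃ g : C.V → C.V → ℝ → X,
    (∀ a b, UniformContinuous (g a b)) ∧ (∀ a b, g a b 0 = C.pt a) ∧
    (∀ a b, C.A a b → g a b 1 = C.pt b) ∧ ∀ a b s, dist (g a b s) (C.pt a) ≤ ε := by
  have : ∀ a b, ∃ g : ℝ → X, UniformContinuous g ∧ g 0 = C.pt a ∧ (C.A a b → g 1 = C.pt b) ∧
      ∀ s, dist (g s) (C.pt a) ≤ ε := by
    intro a b
    by_cases h : C.A a b
    · obtain ⟨γ, hγ⟩ := C.path a b h
      refine ⟨γ.extend, γ.uniformContinuous_extend, γ.extend_zero, fun _ => γ.extend_one,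
        fun s => ?_⟩
      obtain ⟨t, ht⟩ : γ.extend s ∈ range γ := γ.extend_range ▸ mem_range_self s
      rw [← ht]
      exact hγ t
    · exact ⟨fun _ => C.pt a, uniformContinuous_const, rfl, fun h' => (h h').elim,
        fun _ => by simpa using hε⟩
  choose g h1 h2 h3 h4 using this
  exact ⟨g, h1, h2, h3, h4⟩

lemma exists_delta [CompactSpace X] (hε : 0 < ε) : ∃ δ, 0 < δ ∧ δ ≤ ε ∧
    ∀ a b z, z ∈ C.F b → infDist z (C.F a) < δ → a = b ∨ C.A a b := by
  have := C.fin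
  have h : ∀ p : C.V × C.V, ∃ δ, 0 < δ ∧
      ∀ z, z ∈ C.F p.2 → infDist z (C.F p.1) < δ → (C.F p.1 ∩ C.F p.2).Nonempty := by
    rintro ⟨a, b⟩
    obtain ⟨z, hz, hmin⟩ := (C.closed b).isCompact.exists_isMinOn (C.nonempty b)
      (continuous_infDist_pt (C.F a)).continuousOn
    by_cases hza : z ∈ C.F a
    · exact ⟨1, one_pos, fun _ _ _ => ⟨z, hza, hz⟩⟩
    · refine ⟨infDist z (C.F a), ((C.closed a).notMem_iff_infDist_pos (C.nonempty a)).1 hza,
        fun y hy hlt => ?_⟩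
      exact absurd (hmin hy) (not_le.2 hlt)
  choose d hd hd' using h
  obtain ⟨δ, h1, h2, h3⟩ := exists_pos_le d hd hε
  exact ⟨δ, h1, h2, fun a b z hz hlt =>
    C.nerve a b (hd' (a, b) z hz (hlt.trans_le (h3 (a, b))))⟩

/-- The vertices whose sets are close to a continuum form a connected set. -/
lemma near_conn {δ : ℝ} (hδ : 0 < δ)
    (hA : ∀ a b z, z ∈ C.F b → infDist z (C.F a) < δ → a = b ∨ C.A a b) (K : H5.Sub X) :
    ∀ a ∈ {a | gap K (C.F a) < δ}, ∀ b ∈ {a | gap K (C.F a) < δ},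
      Relation.ReflTransGen (fun u v => u ∈ {a | gap K (C.F a) < δ} ∧
        v ∈ {a | gap K (C.F a) < δ} ∧ C.A u v) a b := by
  have := C.fin
  set W := {a | gap K (C.F a) < δ} with hW
  set r := fun u v => u ∈ W ∧ v ∈ W ∧ C.A u v with hr
  have hmem : ∀ {c z}, z ∈ (K.1 : Set X) → z ∈ C.F c → c ∈ W := fun hz hc => by
    simp only [hW, mem_ofPred_eq, gap_zero K hz hc, hδ]
  have h0 : ∀ a ∈ W, ∃ c z, z ∈ (K.1 : Set X) ∧ z ∈ C.F c ∧ Relation.ReflTransGen r a c ∧
      Relation.ReflTransGen r c a := by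
    intro a ha
    obtain ⟨z, hz, h1, -⟩ := gap_spec K (C.F a)
    obtain ⟨c, hc⟩ := C.cover z
    refine ⟨c, z, hz, hc, ?_⟩
    rcases hA a c z hc (h1 ▸ ha) with rfl | h
    · exact ⟨.refl, .refl⟩
    · exact ⟨.single ⟨ha, hmem hz hc, h⟩, .single ⟨hmem hz hc, ha, C.symm _ _ h⟩⟩
  intro a ha b hb
  obtain ⟨c, z, hz, hc, hac, -⟩ := h0 a ha
  obtain ⟨d, y, hy, hd, -, hdb⟩ := h0 b hb
  refine hac.trans (Relation.ReflTransGen.trans ?_ hdb)
  by_contra hcd
  have hcl : ∀ S : Set C.V, IsClosed (⋃ u ∈ S, C.F u) := fun S =>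
    (Set.toFinite S).isClosed_biUnion fun u _ => C.closed u
  obtain ⟨x, hx, hx1, hx2⟩ := isPreconnected_closed_iff.1 K.2.isPreconnected
    (⋃ u ∈ {u | Relation.ReflTransGen r c u}, C.F u)
    (⋃ u ∈ {u | Relation.ReflTransGen r c u}ᶜ, C.F u) (hcl _) (hcl _)
    (fun x _ => by
      obtain ⟨u, hu⟩ := C.cover x
      by_cases h : Relation.ReflTransGen r c u
      · exact Or.inl (mem_biUnion h hu)
      · exact Or.inr (mem_biUnion h hu))
    ⟨z, hz, mem_biUnion (x := c) Relation.ReflTransGen.refl hc⟩ ⟨y, hy, mem_biUnion hcd hd⟩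
  obtain ⟨u, hu, hxu⟩ := mem_iUnion₂.1 hx1
  obtain ⟨v, hv, hxv⟩ := mem_iUnion₂.1 hx2
  rcases C.nerve u v ⟨x, hxu, hxv⟩ with rfl | h
  · exact hv hu
  · exact hv (Relation.ReflTransGen.tail hu ⟨hmem hx hxu, hmem hx hxv, h⟩)

variable [Fintype C.V] [DecidableEq C.V] [Nonempty C.V]

/-- The part of the realised tree reached with the remaining times `ee`. -/
def bet (g : C.V → C.V → ℝ → X) (N : ℝ) (w : C.V → ℝ) : Set X :=
  ⋃ a, ⋃ b, g a b '' Icc 0 (ee C.nxt C.dep N w a)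

variable {C} {g : C.V → C.V → ℝ → X} {N : ℝ}

lemma mem_bet {w : C.V → ℝ} {x : X} :
    x ∈ bet C g N w ↔ ∃ a b s, (0 ≤ s ∧ s ≤ ee C.nxt C.dep N w a) ∧ g a b s = x := by
  simp only [bet, mem_iUnion, mem_image, mem_Icc]

lemma piece_sub (w : C.V → ℝ) (a b : C.V) :
    g a b '' Icc 0 (ee C.nxt C.dep N w a) ⊆ bet C g N w :=
  subset_iUnion₂ (s := fun a b => g a b '' Icc 0 (ee C.nxt C.dep N w a)) a b

lemma bet_compact (hg : ∀ a b, UniformContinuous (g a b)) (w : C.V → ℝ) :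
    IsCompact (bet C g N w) :=
  isCompact_iUnion fun a => isCompact_iUnion fun b => isCompact_Icc.image (hg a b).continuous

lemma bet_join (hg : ∀ a b, UniformContinuous (g a b)) (hg0 : ∀ a b, g a b 0 = C.pt a)
    (hg1 : ∀ a b, C.A a b → g a b 1 = C.pt b) (hN : 0 ≤ N) (w : C.V → ℝ) (b : C.V) (k : ℕ) :
    ∀ a, C.dep b a = k → (k : ℝ) ≤ bud C.nxt N w b a →
      ∃ t, t ⊆ bet C g N w ∧ C.pt b ∈ t ∧ C.pt a ∈ t ∧ IsPreconnected t := by
  induction k with
  | zero =>
    intro a ha hb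
    have hab := C.dep_zero b a ha
    subst hab
    refine ⟨{C.pt a}, ?_, rfl, rfl, isPreconnected_singleton⟩
    rintro x rfl
    have := le_ee C.nxt C.dep N w a a
    rw [ha] at this
    exact mem_bet.2 ⟨a, a, 0, ⟨le_rfl, by linarith⟩, hg0 a a⟩
  | succ k ih =>
    intro a ha hb
    obtain ⟨h1, h2⟩ := C.dep_succ b a k ha
    have h3 := bud_nxt C.nxt hN w b a
    have h4 := le_ee C.nxt C.dep N w b (C.nxt b a)
    rw [h2] at h4
    push_cast at hb
    obtain ⟨t, ht1, ht2, ht3, ht4⟩ := ih (C.nxt b a) h2 (by linarith)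
    refine ⟨t ∪ g (C.nxt b a) a '' Icc 0 (ee C.nxt C.dep N w (C.nxt b a)),
      union_subset ht1 (piece_sub w _ _), Or.inl ht2,
      Or.inr ⟨1, ⟨zero_le_one, by linarith⟩, hg1 _ _ h1⟩, ?_⟩
    exact IsPreconnected.union (C.pt (C.nxt b a)) ht3 ⟨0, ⟨le_rfl, by linarith⟩, hg0 _ _⟩ ht4
      (isPreconnected_Icc.image _ (hg _ _).continuous.continuousOn)

omit [Fintype C.V] [DecidableEq C.V] in
lemma pos_of_dep (hN : ∀ a b, (C.dep a b : ℝ) + 1 ≤ N) : 0 < N := by
  obtain ⟨a⟩ := ‹Nonempty C.V›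
  have := hN a a
  have : (0 : ℝ) ≤ C.dep a a := Nat.cast_nonneg _
  linarith

lemma ee_top (hN : ∀ a b, (C.dep a b : ℝ) + 1 ≤ N) (w : C.V → ℝ) {a : C.V} (ha : w a = mx w) :
    1 ≤ ee C.nxt C.dep N w a := by
  have h0 := pos_of_dep hN
  have h1 := le_ee C.nxt C.dep N w a a
  have h2 : N ≤ bud C.nxt N w a a := by
    have := le_hat C.nxt w a
    refine le_min (by rw [ha]; simp) ?_
    nlinarith
  linarith [hN a a]

lemma bet_conn (hg : ∀ a b, UniformContinuous (g a b)) (hg0 : ∀ a b, g a b 0 = C.pt a)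
    (hg1 : ∀ a b, C.A a b → g a b 1 = C.pt b) (hN : ∀ a b, (C.dep a b : ℝ) + 1 ≤ N)
    (w : C.V → ℝ) : IsConnected (bet C g N w) := by
  have h0 := pos_of_dep hN
  obtain ⟨a0, ha0⟩ := exists_mx w
  refine ⟨⟨C.pt a0, mem_bet.2 ⟨a0, a0, 0, ⟨le_rfl, by linarith [ee_top hN w ha0]⟩, hg0 _ _⟩⟩,
    isPreconnected_of_forall (C.pt a0) fun x hx => ?_⟩
  obtain ⟨a, c, s, hs, rfl⟩ := mem_bet.1 hx
  obtain ⟨b, hb⟩ := exists_ee C.nxt C.dep N w a
  have hd : (0 : ℝ) ≤ C.dep b a := Nat.cast_nonneg _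
  obtain ⟨t, ht1, ht2, ht3, ht4⟩ := bet_join hg hg0 hg1 h0.le w b _ a rfl (by linarith [hs.1, hs.2])
  have h5 := bud_top C.nxt h0 w ha0 (b := b) (a := a) (by linarith [hs.1, hs.2])
  obtain ⟨u, hu1, hu2, hu3, hu4⟩ := bet_join hg hg0 hg1 h0.le w a0 _ b rfl (by linarith [hN a0 b])
  refine ⟨(u ∪ t) ∪ g a c '' Icc 0 (ee C.nxt C.dep N w a),
    union_subset (union_subset hu1 ht1) (piece_sub w _ _), Or.inl (Or.inl hu2),
    Or.inr ⟨s, hs, rfl⟩, ?_⟩
  exact IsPreconnected.union (C.pt a) (Or.inr ht3) ⟨0, ⟨le_rfl, hs.1.trans hs.2⟩, hg0 _ _⟩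
    (IsPreconnected.union (C.pt b) hu3 ht2 hu4 ht4)
    (isPreconnected_Icc.image _ (hg _ _).continuous.continuousOn)

/-- A vertex that has just been reached has a neighbour reached one unit of time earlier. -/
lemma ee_pred (hN : ∀ a b, (C.dep a b : ℝ) + 1 ≤ N) (w : C.V → ℝ) {a : C.V}
    (h0 : 0 ≤ ee C.nxt C.dep N w a) (h1 : ee C.nxt C.dep N w a < 1) :
    ∃ a', C.A a' a ∧ 1 ≤ ee C.nxt C.dep N w a' := by
  have hN0 := pos_of_dep hN
  obtain ⟨b, hb⟩ := exists_ee C.nxt C.dep N w a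
  rcases hk : C.dep b a with _ | k
  · exfalso
    have hab := C.dep_zero b a hk
    subst hab
    obtain ⟨a0, ha0⟩ := exists_mx w
    rw [hk] at hb
    have h5 := bud_top C.nxt hN0 w ha0 (b := a) (a := a) (by simpa [hb] using h0)
    linarith [le_ee C.nxt C.dep N w a0 a, hN a0 a]
  · obtain ⟨h2, h3⟩ := C.dep_succ b a k hk
    refine ⟨_, h2, ?_⟩
    have h4 := le_ee C.nxt C.dep N w b (C.nxt b a)
    have h5 := bud_nxt C.nxt hN0.le w b a
    rw [h3] at h4
    rw [hk] at hb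
    push_cast at hb
    linarith

lemma bet_close (hg0 : ∀ a b, g a b 0 = C.pt a)
    (hg1 : ∀ a b, C.A a b → g a b 1 = C.pt b) (hN : ∀ a b, (C.dep a b : ℝ) + 1 ≤ N)
    {η ρ : ℝ} (hη : 0 ≤ η) (hρ : ρ ≤ 1)
    (hgu : ∀ a b s s', dist s s' < ρ → dist (g a b s) (g a b s') ≤ η) {w w' : C.V → ℝ}
    (hw : ∀ a, dist (ee C.nxt C.dep N w a) (ee C.nxt C.dep N w' a) < ρ) :
    ∀ x ∈ bet C g N w, ∃ y ∈ bet C g N w', dist x y ≤ 2 * η := by
  intro x hx
  obtain ⟨a, b, s, hs, rfl⟩ := mem_bet.1 hx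
  have ha := hw a
  rw [Real.dist_eq, abs_lt] at ha
  by_cases h : 0 ≤ ee C.nxt C.dep N w' a
  · refine ⟨g a b (min s (ee C.nxt C.dep N w' a)),
      mem_bet.2 ⟨a, b, _, ⟨le_min hs.1 h, min_le_right _ _⟩, rfl⟩, ?_⟩
    have := hgu a b s (min s (ee C.nxt C.dep N w' a)) (by
      rw [Real.dist_eq, abs_lt]
      rcases min_cases s (ee C.nxt C.dep N w' a) with h' | h' <;> constructor <;>
        linarith [hs.2, h'.1, h'.2])
    linarith
  · push Not at h
    obtain ⟨a', h1, h2⟩ := ee_pred hN w (hs.1.trans hs.2) (by linarith)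
    have ha' := hw a'
    rw [Real.dist_eq, abs_lt] at ha'
    refine ⟨g a' a (min 1 (ee C.nxt C.dep N w' a')),
      mem_bet.2 ⟨a', a, _, ⟨le_min zero_le_one (by linarith), min_le_right _ _⟩, rfl⟩, ?_⟩
    have h3 := hgu a b s 0 (by
      rw [Real.dist_eq, abs_lt]
      constructor <;> linarith [hs.1, hs.2])
    have h4 := hgu a' a 1 (min 1 (ee C.nxt C.dep N w' a')) (by
      rw [Real.dist_eq, abs_lt]
      rcases min_cases 1 (ee C.nxt C.dep N w' a') with h' | h' <;> constructor <;>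
        linarith [h'.1, h'.2])
    rw [hg0] at h3
    rw [hg1 _ _ h1] at h4
    linarith [dist_triangle (g a b s) (C.pt a) (g a' a (min 1 (ee C.nxt C.dep N w' a')))]

end Top

/-- Approximate fixed points. -/
lemma approx (hB : BrouwerStmt) {X : Type} [MetricSpace X] [CompactSpace X] [Nonempty X] {ε : ℝ}
    (hε : 0 < ε) (C : TreeCover X ε) (f : H5.Sub X → H5.Sub X) (hf : Continuous f) :
    ∃ K, dist (f K) K ≤ 3 * ε := by
  classical
  have := C.fin
  have := Fintype.ofFinite C.V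
  have : Nonempty C.V := ⟨(C.cover (Classical.arbitrary X)).choose⟩
  obtain ⟨g, hg, hg0, hg1, hgε⟩ := exists_gam C hε.le
  obtain ⟨δ, hδ, hδε, hA⟩ := exists_delta C hε
  obtain ⟨p, hp⟩ := Finite.exists_max fun p : C.V × C.V => (C.dep p.1 p.2 : ℝ) + 1
  set N : ℝ := (C.dep p.1 p.2 : ℝ) + 1
  have hN : ∀ a b, (C.dep a b : ℝ) + 1 ≤ N := fun a b => hp (a, b)
  let β : (C.V → ℝ) → H5.Sub X := fun w =>
    ⟨⟨⟨bet C g N w, bet_compact hg w⟩, (bet_conn hg hg0 hg1 hN w).nonempty⟩,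
      bet_conn hg hg0 hg1 hN w⟩
  let α : H5.Sub X → C.V → ℝ := fun K a => -min 3 (3 * gap K (C.F a) / δ)
  have hα : Continuous α := continuous_pi fun a => by
    have := continuous_gap (X := X) (C.F a)
    simp only [α]
    fun_prop
  have hα0 : ∀ K a, α K a ≤ 0 := fun K a => by
    have := gap_nonneg K (C.F a)
    exact neg_nonpos.2 (le_min (by norm_num) (by positivity))
  have hβ : Continuous β := by
    refine Metric.continuous_iff'.2 fun w η hη => ?_
    have h1 : ∀ q : C.V × C.V, ∃ ρ, 0 < ρ ∧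
        ∀ s s', dist s s' < ρ → dist (g q.1 q.2 s) (g q.1 q.2 s') ≤ η / 3 := fun q => by
      obtain ⟨ρ, hρ, h⟩ := Metric.uniformContinuous_iff.1 (hg q.1 q.2) (η / 3) (by positivity)
      exact ⟨ρ, hρ, fun s s' hs => (h hs).le⟩
    choose d hd hd' using h1
    obtain ⟨ρ, hρ, hρ1, hρd⟩ := exists_pos_le d hd one_pos
    have hgu : ∀ a b s s', dist s s' < ρ → dist (g a b s) (g a b s') ≤ η / 3 :=
      fun a b s s' h => hd' (a, b) s s' (h.trans_le (hρd (a, b)))
    have h2 : ∀ᶠ w' in nhds w,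
        ∀ a, dist (ee C.nxt C.dep N w' a) (ee C.nxt C.dep N w a) < ρ :=
      Filter.eventually_all.2 fun a =>
        Metric.continuous_iff'.1 (continuous_ee C.nxt C.dep N a) w ρ hρ
    filter_upwards [h2] with w' hw'
    rw [sub_dist]
    refine lt_of_le_of_lt (hausdorffDist_le_of_mem_dist (r := 2 * (η / 3)) (by positivity)
      (bet_close hg0 hg1 hN (by positivity) hρ1 hgu hw')
      (bet_close hg0 hg1 hN (by positivity) hρ1 hgu fun a => by rw [dist_comm]; exact hw' a))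
      (by linarith)
  have hclose : ∀ K, dist K (β (α K)) ≤ 3 * ε := by
    intro K
    have htop : ∀ {z a}, z ∈ (K.1 : Set X) → z ∈ C.F a → α K a = 0 := fun hz ha => by
      simp [α, gap_zero K hz ha]
    have hmx : mx (α K) = 0 := by
      obtain ⟨z, hz⟩ := K.1.nonempty
      obtain ⟨a, ha⟩ := C.cover z
      obtain ⟨b, hb⟩ := exists_mx (α K)
      exact le_antisymm (hb ▸ hα0 K b) (htop hz ha ▸ le_mx (α K) a)
    rw [sub_dist]
    refine hausdorffDist_le_of_mem_dist (by positivity) (fun z hz => ?_) (fun x hx => ?_)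
    · obtain ⟨a, ha⟩ := C.cover z
      have h1 := ee_top hN (α K) ((htop hz ha).trans hmx.symm)
      exact ⟨C.pt a, mem_bet.2 ⟨a, a, 0, ⟨le_rfl, by linarith⟩, hg0 _ _⟩,
        by linarith [C.near a z ha]⟩
    · obtain ⟨a, b, s, hs, rfl⟩ := mem_bet.1 hx
      have h1 := hat_of_ee C.nxt C.dep (pos_of_dep hN) (α K) (hs.1.trans hs.2)
      have h2 : gap K (C.F a) < δ := by
        by_contra h2
        have h3 := hat_le C.nxt (α K) (c := a) (t := -3)
          (W := Finset.univ.filter fun a => gap K (C.F a) < δ)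
          (fun u hu v hv => by
            simp only [Finset.mem_filter, Finset.mem_univ, true_and] at hu hv ⊢
            exact C.conv _ (near_conn C hδ hA K) u hu v hv)
          (by simpa using h2)
          (fun u hu => by
            simp only [Finset.mem_filter, Finset.mem_univ, true_and, not_lt] at hu
            refine neg_le_neg (le_min le_rfl ?_)
            rw [le_div_iff₀ hδ]
            linarith)
        linarith
      obtain ⟨z, hz, h3, -⟩ := gap_spec K (C.F a)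
      obtain ⟨y, hy, h4⟩ := (infDist_lt_iff (C.nonempty a)).1 (h3 ▸ h2)
      refine ⟨z, hz, ?_⟩
      have h5 := dist_triangle4 (g a b s) (C.pt a) y z
      rw [dist_comm (C.pt a) y, dist_comm y z] at h5
      linarith [hgε a b s, C.near a y hy]
  obtain ⟨w, hw⟩ := hB C.V (fun w => α (f (β w))) (hα.comp (hf.comp hβ))
    ⟨3, fun w => (pi_norm_le_iff_of_nonneg (by norm_num)).2 fun a => by
      rw [Real.norm_eq_abs, abs_le]
      exact ⟨neg_le_neg (min_le_left _ _), by linarith [hα0 (f (β w)) a]⟩⟩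
  refine ⟨β w, ?_⟩
  have := hclose (f (β w))
  rwa [hw] at this

theorem hyper (hB : BrouwerStmt) : HyperStmt := by
  intro X _ _ _ hC f hf
  obtain ⟨C⟩ := hC 1 one_pos
  obtain ⟨K0, -⟩ := approx hB one_pos C f hf
  obtain ⟨K, -, hK⟩ := isCompact_univ.exists_isMinOn ⟨K0, mem_univ _⟩
    (hf.dist continuous_id).continuousOn
  refine ⟨K, dist_le_zero.1 (le_of_forall_pos_le_add fun η hη => ?_)⟩
  obtain ⟨C⟩ := hC (η / 3) (by positivity)
  obtain ⟨L, hL⟩ := approx hB (by positivity) C f hf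
  have : dist (f K) K ≤ dist (f L) L := hK (mem_univ L)
  linarith

end Pool.Agent.MP_98f34a_gt.H93
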